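import Pool.Agent.TH54.BExt
import Pool.Agent.TH54.BU.Iter
import Pool.Agent.Y321.HM.Para
import Pool.Agent.Y321.HM.Ext
import Pool.Agent.Y321.HM.Gen

/-!
# MP_adec7c_al: hereditarily minimal locally compact groups whose central quotient is a free
Burnside group of any rank, and minimality among paratopological group topologies

Stronger form of `HereditarilyMinimalExtensions`.
-/

set_option autoImplicit false

namespace Pool.Agent.Results.MP_adec7c_al.BurnsideQuotients

open Pool.Agent.TH54 Pool.Agent.TH54.BU Pool.Agent.Y321.HM

universe u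

/-- A topological group is *paratopologically hereditarily minimal* if for every subgroup `H` there
is no topology on `H` which is `T₀`, makes the multiplication of `H` (jointly) continuous and is
strictly coarser than the subspace topology. Inversion is not supposed to be continuous and the
topology is not supposed to be Hausdorff; so this is stronger than hereditary minimality. -/
def ParaHereditarilyMinimal (G : Type u) [Group G] [TopologicalSpace G] : Prop :=
  ∀ (H : Subgroup G) (σ : TopologicalSpace H), @ContinuousMul H σ _ → @T0Space H σ →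
    (instTopologicalSpaceSubtype : TopologicalSpace H) ≤ σ → σ = instTopologicalSpaceSubtype

/-- hereditarily minimal topological groups -/
def HereditarilyMinimal (G : Type u) [Group G] [TopologicalSpace G] : Prop :=
  ∀ (H : Subgroup G) (σ : TopologicalSpace H), @IsTopologicalGroup H σ _ → @T2Space H σ →
    (instTopologicalSpaceSubtype : TopologicalSpace H) ≤ σ → σ = instTopologicalSpaceSubtype

/-- the free group of exponent `p` on the set `I` (free Burnside group) -/
abbrev FreeBurnside (I : Type) (p : ℕ) : Type :=
  FreeGroup I ⧸ Subgroup.normalClosure (Set.range fun g : FreeGroup I => g ^ p)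

theorem para_of (p : ℕ) [Fact p.Prime] (M : Type u) [Group M] [TopologicalSpace M]
    [IsTopologicalGroup M] [T2Space M]
    (htf : ∀ x : M, IsOfFinOrder x → x = 1)
    (hopen : IsOpen (Subgroup.center M : Set M))
    (hZ : Nonempty (Multiplicative ℤ_[p] ≃ₜ* Subgroup.center M))
    (hexp : ∃ n : ℕ, 0 < n ∧ ∀ x : M ⧸ Subgroup.center M, x ^ n = 1) :
    ParaHereditarilyMinimal M := by
  obtain ⟨e⟩ := hZ
  obtain ⟨ι, hι, hc, hr⟩ := instances_of_center hopen e
  obtain ⟨n, hn, hx⟩ := hexp
  intro H σ hg hT hle
  refine paraMinimal_of ι hι hc htf hn ?_ H σ hg hT hle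
  intro x
  apply hr
  have := hx (x : M ⧸ Subgroup.center M)
  rw [← QuotientGroup.mk_pow, QuotientGroup.eq_one_iff] at this
  exact this

/-- (1) For every sufficiently large prime `p` and every set `I` with at least two elements there is
a torsion-free Hausdorff topological group `M` whose centre is open and topologically isomorphic to
`ℤ_p`, with `M / Z(M)` isomorphic to the free Burnside group `B(I, p)`; `M` is topologically
generated by a family `(s i)` indexed by `I` (so by two elements if `I` has two elements);
`M / Z(M)` is infinite, and of the same cardinality as `I` if `I` is infinite; and `M` is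
hereditarily minimal, even among the `T₀` paratopological group topologies, locally compact, neither
discrete nor compact.
(2) For every prime `p`, every torsion-free Hausdorff topological group `M` whose centre is open and
topologically isomorphic to `ℤ_p`, with `M / Z(M)` infinite of finite exponent, is hereditarily
minimal even among the `T₀` paratopological group topologies, hereditarily minimal, locally compact,
neither discrete nor compact, and its centre is neither trivial nor all of `M`. -/
theorem result :
    (∃ p0 : ℕ, ∀ (p : ℕ) [Fact p.Prime], p0 ≤ p → ∀ (I : Type) [Nontrivial I],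
      ∃ (M : Type) (_ : Group M) (_ : TopologicalSpace M), IsTopologicalGroup M ∧ T2Space M ∧
        (∀ x : M, IsOfFinOrder x → x = 1) ∧ IsOpen (Subgroup.center M : Set M) ∧
        Nonempty (Multiplicative ℤ_[p] ≃ₜ* Subgroup.center M) ∧
        Nonempty (M ⧸ Subgroup.center M ≃* FreeBurnside I p) ∧
        (∃ s : I → M, closure (Subgroup.closure (Set.range s) : Set M) = Set.univ) ∧
        Infinite (M ⧸ Subgroup.center M) ∧
        (Infinite I → Nonempty (M ⧸ Subgroup.center M ≃ I)) ∧
        ParaHereditarilyMinimal M ∧ HereditarilyMinimal M ∧ LocallyCompactSpace M ∧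
        ¬ DiscreteTopology M ∧ ¬ CompactSpace M) ∧
    (∀ (p : ℕ) [Fact p.Prime] (M : Type u) [Group M] [TopologicalSpace M]
      [IsTopologicalGroup M] [T2Space M],
      (∀ x : M, IsOfFinOrder x → x = 1) →
      IsOpen (Subgroup.center M : Set M) →
      Nonempty (Multiplicative ℤ_[p] ≃ₜ* Subgroup.center M) →
      (∃ n : ℕ, 0 < n ∧ ∀ x : M ⧸ Subgroup.center M, x ^ n = 1) →
      Infinite (M ⧸ Subgroup.center M) →
      ParaHereditarilyMinimal M ∧ HereditarilyMinimal M ∧ LocallyCompactSpace M ∧
      ¬ DiscreteTopology M ∧ ¬ CompactSpace M ∧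
      Subgroup.center M ≠ ⊥ ∧ Subgroup.center M ≠ ⊤) := by
  refine ⟨?_, ?_⟩
  · obtain ⟨p0, h⟩ := Pool.Agent.TH54.BU.burnside
    refine ⟨p0, fun p hp hle I _ => ?_⟩
    have hB : Burn p := h p hp.out hle
    obtain ⟨M, hG, hTop, hTG, hT2, htf, hopen, hZ, ⟨e⟩, hs⟩ := exists_ext_gen hB I
    have hinf : Infinite (FreeGroup I ⧸ powSub (FreeGroup I) p) := infinite_burn hp.out hB I
    have hinf' : Infinite (M ⧸ Subgroup.center M) := e.toEquiv.infinite_iff.2 hinf
    have hexp : ∃ n : ℕ, 0 < n ∧ ∀ x : M ⧸ Subgroup.center M, x ^ n = 1 := by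
      refine ⟨p, hp.out.pos, fun x => ?_⟩
      apply e.injective
      rw [map_pow, map_one]
      obtain ⟨g, hg⟩ := QuotientGroup.mk_surjective (e x)
      rw [← hg, ← QuotientGroup.mk_pow, QuotientGroup.eq_one_iff]
      exact Subgroup.subset_normalClosure ⟨g, rfl⟩
    obtain ⟨h1, h2, h3, h4, -, -⟩ :=
      bounded_exponent_extensions p M htf hopen hZ hexp hinf'
    refine ⟨M, hG, hTop, hTG, hT2, htf, hopen, hZ, ⟨e⟩, hs, hinf', fun hI => ?_,
      para_of p M htf hopen hZ hexp, h1, h2, h3, h4⟩
    obtain ⟨f⟩ := card_burn hB I
    exact ⟨e.toEquiv.trans f⟩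
  · intro p _ M _ _ _ _ h1 h2 h3 h4 h5
    exact ⟨para_of p M h1 h2 h3 h4, bounded_exponent_extensions p M h1 h2 h3 h4 h5⟩

end Pool.Agent.Results.MP_adec7c_al.BurnsideQuotients
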